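import Pool.Agent.Y47.BU5.Snd
import Pool.Agent.H37R3.K5.UAFin

/-! Patterns and trees (generated data, checked by the kernel). -/

set_option autoImplicit false
set_option maxRecDepth 100000
set_option maxHeartbeats 4000000

namespace Pool.Agent.Y47.BU5
open Pool.Agent.Y47.BU

/-- a pattern -/
def PX : Pt := ⟨4, [(0, 1, 2, 1), (0, 1, 3, 0), (0, 2, 3, 0)], [(3, 0, 0)]⟩

/-- a tree -/
def tX0 : Tr :=
  (.n 29 (.f 2189) (.n 11 (.f 805) (.n 17 (.f 1317) (.n 31 (.f 2637) (.n 25 (.f 2409) (.n 10 (.f 801) (.n 32 (.f 2709) (.n 8 (.n 6 (.f 641) (.n 1 (.f 72) (.n 4 (.n 5 (.f 352) (.k 673480768)) (.k 539263040)))) (.k 698417736)))))))))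

theorem oX0 : ck5 PX 131063 [] tX0 = true := by decide +kernel

/-- a tree -/
def tX1 : Tr :=
  (.n 29 (.f 2261) (.n 17 (.f 1317) (.n 23 (.f 1829) (.n 32 (.f 2709) (.n 33 (.f 2781) (.n 15 (.n 9 (.n 6 (.f 705) (.n 10 (.f 793) (.n 11 (.f 857) (.k 679514624)))) (.f 1099)) (.k 698451024)))))))

theorem oX1 : ck5 PX 262135 [] tX1 = true := by decide +kernel

/-- a tree -/
def tX2 : Tr :=
  (.n 2 (.n 1 (.f 136) (.n 3 (.f 208) (.n 5 (.f 336) (.k 677412928)))) (.n 12 (.f 1026) (.n 24 (.f 2192) (.n 4 (.f 288) (.n 8 (.n 6 (.f 641) (.n 1 (.f 72) (.n 10 (.f 785) (.k 539263040)))) (.n 13 (.f 1098) (.n 1 (.n 3 (.f 200) (.n 5 (.f 328) (.k 677445696))) (.k 289439808))))))))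

theorem oX2 : ck5 PX 520159 [] tX2 = true := by decide +kernel

theorem okX : ∀ m ∈ Pool.Agent.H37R3.UA.MS, ∃ tr, ck5 PX m [] tr = true := by
  intro m hm
  simp only [Pool.Agent.H37R3.UA.MS, List.mem_cons, List.not_mem_nil, or_false] at hm
  rcases hm with rfl | rfl | rfl
  exacts [⟨_, oX0⟩, ⟨_, oX1⟩, ⟨_, oX2⟩]

/-- a pattern -/
def PY : Pt := ⟨4, [(0, 1, 2, 1), (0, 1, 3, 1), (0, 2, 3, 1)], [(1, 0, 0), (2, 0, 0)]⟩

/-- a tree -/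
def tY0 : Tr :=
  (.n 1 (.n 13 (.f 2177) (.n 19 (.f 2241) (.n 12 (.n 6 (.f 1672) (.n 8 (.n 2 (.f 2114) (.n 3 (.n 9 (.f 2115) (.f 1601)) (.f 1664))) (.f 1089))) (.n 2 (.f 642) (.n 8 (.f 138) (.n 6 (.n 16 (.n 4 (.f 644) (.n 3 (.n 18 (.f 1224) (.f 707)) (.k 543227968))) (.k 541393408)) (.k 289444352))))))) (.n 2 (.n 8 (.f 2114) (.n 20 (.f 2242) (.n 18 (.n 6 (.f 1224) (.n 12 (.f 720) (.n 13 (.f 137) (.k 289444352)))) (.n 3 (.f 1219) (.n 4 (.n 22 (.f 708) (.k 543523840)) (.k 543195200)))))) (.n 4 (.n 5 (.n 6 (.f 1088) (.n 10 (.f 1092) (.n 11 (.f 1093) (.n 25 (.f 265) (.n 24 (.n 30 (.f 864) (.n 31 (.f 329) (.k 698388992))) (.k 562074112)))))) (.k 675315776)) (.k 541098048))))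

theorem oY0 : ck5 PY 131063 [] tY0 = true := by decide +kernel

/-- a tree -/
def tY1 : Tr :=
  (.n 1 (.n 13 (.f 2177) (.n 19 (.f 2241) (.n 25 (.f 1281) (.n 24 (.n 6 (.f 1288) (.n 8 (.n 12 (.f 784) (.f 138)) (.f 1089))) (.n 4 (.f 772) (.n 10 (.f 268) (.n 6 (.n 12 (.f 1672) (.n 2 (.f 642) (.n 3 (.n 18 (.f 1224) (.f 707)) (.k 543227968)))) (.k 562074112)))))))) (.n 4 (.n 10 (.f 1092) (.n 34 (.f 836) (.n 11 (.n 5 (.f 1093) (.n 2 (.n 6 (.f 2624) (.n 8 (.f 2114) (.k 541102592))) (.k 675315776))) (.n 31 (.f 2377) (.k 698483272))))) (.n 2 (.n 5 (.n 6 (.f 2112) (.n 8 (.f 2114) (.n 11 (.f 1093) (.k 675320320)))) (.k 679510080)) (.k 541098048))))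

theorem oY1 : ck5 PY 262135 [] tY1 = true := by decide +kernel

/-- a tree -/
def tY2 : Tr :=
  (.n 1 (.n 13 (.f 1665) (.n 19 (.f 1217) (.n 31 (.f 1857) (.n 15 (.n 3 (.f 643) (.n 9 (.f 139) (.n 6 (.n 12 (.f 1672) (.n 2 (.f 642) (.n 5 (.n 30 (.f 1352) (.f 837)) (.k 677445696)))) (.f 1601)))) (.n 20 (.f 722) (.k 425792520)))))) (.n 3 (.n 9 (.f 1091) (.n 27 (.f 771) (.n 10 (.n 4 (.f 1604) (.n 5 (.n 6 (.f 2112) (.n 11 (.f 1605) (.k 677417472))) (.k 679510080))) (.n 25 (.f 1801) (.k 562135624))))) (.n 4 (.n 5 (.n 6 (.f 1600) (.n 10 (.f 1604) (.n 11 (.f 1605) (.k 679514624)))) (.k 677412928)) (.k 543195200))))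

theorem oY2 : ck5 PY 520159 [] tY2 = true := by decide +kernel

theorem okY : ∀ m ∈ Pool.Agent.H37R3.UA.MS, ∃ tr, ck5 PY m [] tr = true := by
  intro m hm
  simp only [Pool.Agent.H37R3.UA.MS, List.mem_cons, List.not_mem_nil, or_false] at hm
  rcases hm with rfl | rfl | rfl
  exacts [⟨_, oY0⟩, ⟨_, oY1⟩, ⟨_, oY2⟩]

/-- a pattern -/
def PZ : Pt := ⟨5, [(0, 1, 2, 1), (0, 1, 3, 1), (0, 2, 3, 1), (0, 1, 4, 0), (0, 2, 4, 0), (0, 3, 4, 0)], []⟩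

/-- a tree -/
def tZ0 : Tr :=
  (.f 22156)

theorem oZ0 : ck5 PZ 131063 [] tZ0 = true := by decide +kernel

/-- a tree -/
def tZ1 : Tr :=
  (.n 8 (.n 9 (.n 13 (.n 16 (.n 12 (.f 10306) (.n 2 (.f 1168) (.n 19 (.n 22 (.n 18 (.f 14403) (.n 3 (.f 1752) (.n 4 (.n 24 (.n 26 (.n 27 (.f 18052) (.f 14603)) (.f 10506)) (.f 2336)) (.k 543227968)))) (.f 22228)) (.f 5849)))) (.f 21652)) (.f 5265)) (.f 8779)) (.f 12874))

theorem oZ1 : ck5 PZ 262135 [] tZ1 = true := by decide +kernel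

/-- a tree -/
def tZ2 : Tr :=
  (.n 2 (.n 4 (.n 8 (.n 11 (.n 12 (.n 13 (.n 15 (.f 9794) (.n 20 (.f 13459) (.n 22 (.n 23 (.n 24 (.n 27 (.n 25 (.f 17988) (.n 10 (.f 6417) (.n 31 (.n 33 (.n 30 (.f 22085) (.n 5 (.f 2896) (.n 1 (.n 3 (.f 1672) (.n 6 (.n 9 (.f 5761) (.n 18 (.f 12291) (.n 19 (.f 12875) (.k 425787904)))) (.f 584))) (.n 3 (.n 6 (.f 4097) (.n 9 (.n 18 (.n 19 (.f 14403) (.f 5841)) (.f 1744)) (.k 543199744))) (.k 677412928))))) (.f 15211)) (.f 7017)))) (.f 14627)) (.f 2336)) (.f 18141)) (.f 22236)))) (.f 5265)) (.f 1168)) (.f 8781)) (.f 21066)) (.f 8196)) (.f 16386))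

theorem oZ2 : ck5 PZ 520159 [] tZ2 = true := by decide +kernel

theorem okZ : ∀ m ∈ Pool.Agent.H37R3.UA.MS, ∃ tr, ck5 PZ m [] tr = true := by
  intro m hm
  simp only [Pool.Agent.H37R3.UA.MS, List.mem_cons, List.not_mem_nil, or_false] at hm
  rcases hm with rfl | rfl | rfl
  exacts [⟨_, oZ0⟩, ⟨_, oZ1⟩, ⟨_, oZ2⟩]

end Pool.Agent.Y47.BU5
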