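import Pool.Agent.Y47.BU5.Fin
import Pool.Agent.Y47.BU5.Dat

/-! The list of the three six-vertex 3-graphs. -/

set_option autoImplicit false
set_option maxRecDepth 100000
set_option maxHeartbeats 4000000
open Finset
open scoped Classical

namespace Pool.Agent.Y47.BU5
open Pool.Agent.Y47.BU
open Pool.Agent.H37R3.K5 Pool.Agent.H37R3.UA Pool.Agent.H37R3.CopL

theorem masksUA : ∀ F ∈ FS, ∃ m ∈ MS, Pool.Agent.H37R3.Cop.Mask m F := by
  intro F hF
  simp only [FS, List.mem_cons, List.not_mem_nil, or_false] at hF
  rcases hF with rfl | rfl | rfl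
  · exact ⟨131063, by simp [MS], by decide +kernel, by decide +kernel⟩
  · exact ⟨262135, by simp [MS], by decide +kernel, by decide +kernel⟩
  · exact ⟨520159, by simp [MS], by decide +kernel, by decide +kernel⟩

theorem certUA : Cert MS FS 96 where
  mask := masksUA
  ineq := by
    intro n hn H h3 hK
    have h := Pool.Agent.H37R3.UA.main (V := Fin n) h3 hK (by rw [Fintype.card_fin]; exact hn)
    rw [Fintype.card_fin] at h
    exact h

end Pool.Agent.Y47.BU5
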