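import Pool.Agent.Y47.BU5.Neg
import Pool.Agent.Y47.BU.Link
import Pool.Agent.H37R3.K5.Free

/-! The density `3/4` from trees for the members of a list of six-vertex 3-graphs. -/

set_option autoImplicit false
set_option maxRecDepth 100000
set_option maxHeartbeats 4000000
open Finset
open scoped Classical

namespace Pool.Agent.Y47.BU5
open Pool.Agent.Y47.BU
open Pool.Agent.H122R2.N6 Pool.Agent.H37R3.Pen Pool.Agent.H37R3.Cop Pool.Agent.H37R3.CopL
open Pool.Agent.H37R3.K5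
open Pool.Agent.TH773 Pool.Agent.TH773.ST
open Pool.Agent.TH773.CL (tx choose3)
open Pool.Agent.TH773.CM (CpK cpS mem_cpS)

/-- an inequality for `K_5^3`-free 3-graphs, with penalties for the members of a list -/
structure Cert (MS : List ℕ) (FS : List (Finset (Finset (Fin 6)))) (C : ℕ) : Prop where
  mask : ∀ F ∈ FS, ∃ m ∈ MS, Mask m F
  ineq : ∀ n : ℕ, 0 < n → ∀ H : Finset (Finset (Fin n)), (∀ e ∈ H, e.card = 3) → K53Free H →
    8 * n ^ 3 * H.card ≤ n ^ 6 + C *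
      (((univ : Finset (Fin n)).powersetCard 6).filter fun S => IndL FS H S).card

theorem img5 {n : ℕ} (f : Fin 6 → Fin n) (t : Finset (Fin 6)) :
    @Finset.image _ _ (fun a b => Classical.propDecidable (a = b)) f t =
      @Finset.image _ _ (instDecidableEqFin n) f t := by
  ext v
  simp only [mem_image]

theorem copies_le {MS : List ℕ} {FS : List (Finset (Finset (Fin 6)))}
    (hm : ∀ F ∈ FS, ∃ m ∈ MS, Mask m F) {n : ℕ} (H : Finset (Finset (Fin n))) {k N : ℕ}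
    (h : ∀ m ∈ MS, k * (cpS (tri H) 6 m).card ≤ N) :
    k * (((univ : Finset (Fin n)).powersetCard 6).filter fun S => IndL FS H S).card ≤
      MS.length * N := by
  have h1 : (((univ : Finset (Fin n)).powersetCard 6).filter fun S => IndL FS H S) ⊆
      MS.toFinset.biUnion fun m => (cpS (tri H) 6 m).image fun x => univ.image x := by
    intro S hS
    obtain ⟨-, F, hF, f, hf, hS2, h2⟩ := mem_filter.mp hS
    obtain ⟨m, hm, hM⟩ := hm F hF
    rw [img5] at hS2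
    simp only [img5] at h2
    refine mem_biUnion.mpr ⟨m, List.mem_toFinset.mpr hm, mem_image.mpr ⟨f, mem_cpS.mpr ⟨hf, ?_⟩,
      hS2⟩⟩
    intro a b c hab hbc
    rw [← Pool.Agent.TH773.CL.ti_tx a b c hab hbc]
    exact copy_of_ind hM h2 a b c hab hbc
  calc k * _ ≤ k * ∑ m ∈ MS.toFinset, (cpS (tri H) 6 m).card := by
        refine Nat.mul_le_mul_left _ ((card_le_card h1).trans (card_biUnion_le.trans ?_))
        exact sum_le_sum fun m _ => card_image_le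
    _ = ∑ m ∈ MS.toFinset, k * (cpS (tri H) 6 m).card := mul_sum _ _ _
    _ ≤ MS.toFinset.card • N := sum_le_card_nsmul _ _ _ fun m hm =>
        h m (List.mem_toFinset.mp hm)
    _ ≤ MS.length * N := by
        rw [smul_eq_mul]
        exact Nat.mul_le_mul_right _ (List.toFinset_card_le _)

/-- the general conclusion -/
theorem main5 {MS : List ℕ} {FS : List (Finset (Finset (Fin 6)))} {C : ℕ} (hC : Cert MS FS C)
    (P : Pt) (t0 : ℕ) (h : ∀ m ∈ MS, ∃ tr, ck5 P m [] tr = true) {ε : ℝ} (hε : 0 < ε) :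
    ∃ K n0 : ℕ, ∀ n, n0 ≤ n → ∀ H : Finset (Finset (Fin n)), (∀ e ∈ H, e.card = 3) →
      K53Free H → K * (occS (tri H) P t0).card ≤ n ^ (P.k * t0) →
      (H.card : ℝ) ≤ (3 / 4 + ε) * (n.choose 3 : ℝ) := by
  obtain ⟨k, hk⟩ := exists_nat_ge ((3 : ℝ) * (C * MS.length) / ε + 1)
  obtain ⟨n1, hn1⟩ := exists_nat_ge ((9 : ℝ) / ε)
  obtain ⟨K, n0, h1⟩ := neg_list5 P t0 k MS h
  refine ⟨K, max n0 (max n1 6), fun n hn H h3 hK hO => ?_⟩
  have a0 : n0 ≤ n := (le_max_left _ _).trans hn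
  have a1 : n1 ≤ n := (le_max_left _ _).trans ((le_max_right _ _).trans hn)
  have a2 : 6 ≤ n := (le_max_right _ _).trans ((le_max_right _ _).trans hn)
  have h2 := h1 (Fin n) (tri H) (tri_sy H) (tri_noK5 h3 hK)
  rw [Fintype.card_fin] at h2
  have h4 := copies_le hC.mask H (h2 hO a0)
  have h5 := hC.ineq n (by omega) H h3 hK
  set N := (((univ : Finset (Fin n)).powersetCard 6).filter fun S => IndL FS H S).card with hN
  set L := MS.length with hL
  have hn0 : (0 : ℝ) < n := by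
    have : (6 : ℝ) ≤ n := by exact_mod_cast a2
    linarith
  have hk1 : (3 : ℝ) * (C * L) ≤ ε * k := by
    have b1 : (3 : ℝ) * (C * L) / ε ≤ k := by linarith
    rw [div_le_iff₀ hε] at b1
    linarith [mul_comm (k : ℝ) ε]
  have hk0 : (0 : ℝ) < k := by
    have b1 : (0 : ℝ) ≤ (3 : ℝ) * (C * L) / ε := by positivity
    linarith
  have g2 : (k : ℝ) * N ≤ L * (n : ℝ) ^ 6 := by exact_mod_cast h4
  have g3 : (C : ℝ) * N ≤ ε / 3 * (n : ℝ) ^ 6 := by
    refine le_of_mul_le_mul_left ?_ hk0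
    calc (k : ℝ) * (C * N) = C * (k * N) := by ring
      _ ≤ C * (L * (n : ℝ) ^ 6) := mul_le_mul_of_nonneg_left g2 (by positivity)
      _ = (3 * (C * L)) / 3 * (n : ℝ) ^ 6 := by ring
      _ ≤ (ε * k) / 3 * (n : ℝ) ^ 6 := by
          apply mul_le_mul_of_nonneg_right _ (by positivity)
          linarith
      _ = k * (ε / 3 * (n : ℝ) ^ 6) := by ring
  have g1 : 8 * (n : ℝ) ^ 3 * H.card ≤ (n : ℝ) ^ 6 + C * N := by exact_mod_cast h5
  have g4 : 8 * (H.card : ℝ) ≤ (n : ℝ) ^ 3 + ε / 3 * (n : ℝ) ^ 3 := by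
    have b2 : (0 : ℝ) < (n : ℝ) ^ 3 := by positivity
    refine le_of_mul_le_mul_left ?_ b2
    calc (n : ℝ) ^ 3 * (8 * H.card) = 8 * (n : ℝ) ^ 3 * H.card := by ring
      _ ≤ (n : ℝ) ^ 6 + ε / 3 * (n : ℝ) ^ 6 := by linarith
      _ = (n : ℝ) ^ 3 * ((n : ℝ) ^ 3 + ε / 3 * (n : ℝ) ^ 3) := by ring
  obtain ⟨c1, c2⟩ := choose3 a2
  have hn9 : (9 : ℝ) ≤ ε * n := by
    rw [div_le_iff₀ hε] at hn1
    have a3 : (n1 : ℝ) ≤ n := by exact_mod_cast a1
    have a4 : (n1 : ℝ) * ε ≤ n * ε := mul_le_mul_of_nonneg_right a3 hε.le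
    linarith [mul_comm (n : ℝ) ε]
  have g5 : (9 : ℝ) * (n : ℝ) ^ 2 ≤ ε * (n : ℝ) ^ 3 := by
    have b3 : (9 : ℝ) * (n : ℝ) ^ 2 ≤ (ε * n) * (n : ℝ) ^ 2 :=
      mul_le_mul_of_nonneg_right hn9 (by positivity)
    linarith [b3, show (ε * n) * (n : ℝ) ^ 2 = ε * (n : ℝ) ^ 3 by ring]
  have g6 : ε * (n : ℝ) ^ 3 ≤ ε * (12 * (n.choose 3 : ℝ)) := mul_le_mul_of_nonneg_left c1 hε.le
  nlinarith

/-- the density `3/4` for a graph `F` -/
theorem link_main5 {MS : List ℕ} {FS : List (Finset (Finset (Fin 6)))} {C : ℕ}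
    (hC : Cert MS FS C) (P : Pt) (hok : ∀ m ∈ MS, ∃ tr, ck5 P m [] tr = true)
    {α : Type} [Fintype α] (F : SimpleGraph α) (φ : α → ℕ) (hP : 0 < P.k)
    (hφ : ∀ u, φ u + 1 < P.k)
    (hT : ∀ u v, u ≠ v → φ u < φ v → (0, φ u + 1, φ v + 1, if F.Adj u v then 1 else 0) ∈ P.T)
    (hR : ∀ u v, u ≠ v → φ u = φ v → (φ u + 1, 0, 0) ∈ P.R ∧ ¬ F.Adj u v)
    {ε : ℝ} (hε : 0 < ε) : ∃ δ : ℝ, 0 < δ ∧ ∃ n0 : ℕ, ∀ n, n0 ≤ n →
      ∀ H : Finset (Finset (Fin n)), (∀ e ∈ H, e.card = 3) → K53Free H →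
      ((linkSet F H).card : ℝ) ≤ δ * (n : ℝ) ^ (Fintype.card α + 1) →
      (H.card : ℝ) ≤ (3 / 4 + ε) * (n.choose 3 : ℝ) := by
  obtain ⟨K, n0, h⟩ := main5 hC P (Fintype.card α + 1) hok hε
  refine ⟨1 / ((K : ℝ) + 1), by positivity, n0, fun n hn H h3 hK hl => ?_⟩
  refine h n hn H h3 hK ?_
  have h1 := occ_link φ hP hφ hT hR H
  set s := Fintype.card α with hs
  have h2 : K * (linkSet F H).card ≤ n ^ (s + 1) := by
    have a1 : (K : ℝ) * (linkSet F H).card ≤ (n : ℝ) ^ (s + 1) := by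
      rw [div_mul_eq_mul_div, one_mul, le_div_iff₀ (by positivity)] at hl
      have : (0 : ℝ) ≤ ((linkSet F H).card : ℝ) := Nat.cast_nonneg _
      nlinarith
    exact_mod_cast a1
  have h3 : s + 1 ≤ P.k * (s + 1) := Nat.le_mul_of_pos_left _ hP
  calc K * (occS (tri H) P (s + 1)).card ≤
        K * ((linkSet F H).card * n ^ (P.k * (s + 1) - (s + 1))) := Nat.mul_le_mul_left _ h1
    _ = (K * (linkSet F H).card) * n ^ (P.k * (s + 1) - (s + 1)) := by ring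
    _ ≤ n ^ (s + 1) * n ^ (P.k * (s + 1) - (s + 1)) := Nat.mul_le_mul_right _ h2
    _ = n ^ (P.k * (s + 1)) := by rw [← pow_add]; congr 1; omega

end Pool.Agent.Y47.BU5
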