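import Pool.Agent.Y47.BU.Ram

/-! Independent sets in triple systems without complete 5-sets. -/

set_option autoImplicit false
open Finset

namespace Pool.Agent.Y47.BU5
open Pool.Agent.Y47.BU

/-- independent sets in triple systems without complete 5-sets -/
theorem ind5 (t : ℕ) : ∃ N : ℕ, t ≤ N ∧ ∀ (α : Type) [LinearOrder α] (A : Finset α), N ≤ A.card →
    ∀ g : α → α → α → Bool, (∀ a ∈ A, ∀ b ∈ A, ∀ c ∈ A, ∀ d ∈ A, ∀ e ∈ A, a < b → b < c → c < d →
      d < e → g a b c = true → g a b d = true → g a b e = true → g a c d = true →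
      g a c e = true → g a d e = true → g b c d = true → g b c e = true → g b d e = true →
      g c d e = true → False) →
    ∃ B : Finset α, B ⊆ A ∧ B.card = t ∧
      ∀ a ∈ B, ∀ b ∈ B, ∀ c ∈ B, a < b → b < c → g a b c = false := by
  classical
  induction t with
  | zero =>
    exact ⟨0, le_refl _, fun α _ A _ g _ => ⟨∅, empty_subset _, card_empty,
      fun a ha => absurd ha (notMem_empty _)⟩⟩
  | succ t ih =>
    obtain ⟨N, -, hN⟩ := ih
    obtain ⟨N', hN't, hN'⟩ := ind3 (t + 1)
    obtain ⟨M, hM, hR⟩ := ramsey Bool (max N N')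
    refine ⟨1 + M, by have := (le_max_right N N').trans hM; omega, fun α _ A hA g hg => ?_⟩
    have hne : A.Nonempty := card_pos.mp (by omega)
    set x0 := A.min' hne with hx0
    have hx0A : x0 ∈ A := min'_mem A hne
    have h1 : M ≤ (A.erase x0).card := by
      rw [card_erase_of_mem hx0A]
      omega
    obtain ⟨B, c, hB, hs, hh⟩ := hR α _ h1 (fun a b => g x0 a b)
    have hBA : ∀ b ∈ B, b ∈ A := fun b hb => mem_of_mem_erase (hB hb)
    have hlt : ∀ b ∈ B, x0 < b := fun b hb =>
      lt_of_le_of_ne (min'_le A b (hBA b hb)) (ne_of_mem_erase (hB hb)).symm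
    cases c with
    | true =>
      obtain ⟨D, hD, hDt, hDh⟩ := hN' α B (by rw [hs]; exact le_max_right _ _) g (by
        intro a ha b hb c hc d hd hab hbc hcd e1 e2 e3 e4
        exact hg x0 hx0A a (hBA a ha) b (hBA b hb) c (hBA c hc) d (hBA d hd) (hlt a ha) hab hbc
          hcd (hh a ha b hb hab) (hh a ha c hc (hab.trans hbc))
          (hh a ha d hd ((hab.trans hbc).trans hcd)) (hh b hb c hc hbc)
          (hh b hb d hd (hbc.trans hcd)) (hh c hc d hd hcd) e1 e2 e3 e4)
      exact ⟨D, fun b hb => hBA b (hD hb), hDt, hDh⟩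
    | false =>
      obtain ⟨D, hD, hDt, hDh⟩ := hN α B (by rw [hs]; exact le_max_left _ _) g
        (fun a ha b hb c hc d hd e he => hg a (hBA a ha) b (hBA b hb) c (hBA c hc) d (hBA d hd)
          e (hBA e he))
      have hnot : x0 ∉ D := fun hb => lt_irrefl _ (hlt x0 (hD hb))
      refine ⟨insert x0 D, ?_, by rw [card_insert_of_notMem hnot, hDt], ?_⟩
      · intro b hb
        rcases mem_insert.mp hb with rfl | hb
        · exact hx0A
        · exact hBA b (hD hb)
      · intro a ha b hb c hc hab hbc
        have key : ∀ b ∈ insert x0 D, a < b → b ∈ D := by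
          intro b hb hab
          rcases mem_insert.mp hb with hb | hb
          · rcases mem_insert.mp ha with ha | ha
            · rw [ha, hb] at hab
              exact absurd hab (lt_irrefl _)
            · rw [hb] at hab
              exact absurd (hlt a (hD ha)) (not_lt.mpr hab.le)
          · exact hb
        have hbD := key b hb hab
        have hcD := key c hc (hab.trans hbc)
        rcases mem_insert.mp ha with ha | ha
        · rw [ha]
          exact hh b (hD hbD) c (hD hcD) hbc
        · exact hDh a ha b hbD c hcD hab hbc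

end Pool.Agent.Y47.BU5
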