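import Pool.Agent.Y47.BU.Snd
import Pool.Agent.H37R3.K5.Pen

/-! Decision trees for the homogeneous blow-ups in `K_5^3`-free 3-graphs. -/

set_option autoImplicit false
set_option maxRecDepth 100000
open Finset
open scoped Classical

namespace Pool.Agent.Y47.BU5
open Pool.Agent.Y47.BU
open Pool.Agent.H122R2.N6 Pool.Agent.H37R3.Pen Pool.Agent.H37R3.Cop
open Pool.Agent.H37R3.K5 (NoK5 k5b)

/-- five vertices spanning ten edges -/
def leafK5 (m : ℕ) (env : List (ℕ × ℕ)) (p : ℕ) : Bool :=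
  (nall 5 fun i => Nat.blt (dK p i / 8) 6 && Nat.blt (dK p i % 8) 2 &&
    nall i fun j => !Nat.beq (dK p i) (dK p j)) &&
  nall 5 fun l => nall l fun j => nall j fun i =>
    Nat.beq (tv m env (dK p i / 8) (dK p j / 8) (dK p l / 8)) 1

/-- the check of a tree -/
def ck5 (P : Pt) (m : ℕ) : List (ℕ × ℕ) → Tr → Bool
  | env, .k p => leafK5 m env p
  | env, .f p => leafF P m env p
  | env, .n v a b => ck5 P m ((v, 0) :: env) a && ck5 P m ((v, 1) :: env) b

section
variable {V : Type} {E : V → V → V → ℕ} {m t : ℕ} {c : ℕ → ℕ → ℕ} {env : List (ℕ × ℕ)}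
  {y : Fin 6 → Fin t → V}

theorem leafK5_sound (hE : Sy E) (hK : NoK5 E) (h : Hom E m c t y) (hA : Agree c env) (ht : 2 ≤ t)
    {p : ℕ} (hp : leafK5 m env p = true) : False := by
  unfold leafK5 at hp
  rw [Bool.and_eq_true] at hp
  obtain ⟨h0, h1⟩ := hp
  have g : ∀ i, i < 5 → dK p i / 8 < 6 ∧ dK p i % 8 < 2 ∧ ∀ j, j < i → dK p i ≠ dK p j := by
    intro i hi
    have a1 := nall_true h0 i hi
    rw [Bool.and_eq_true, Bool.and_eq_true] at a1
    refine ⟨Nat.le_of_ble_eq_true a1.1.1, Nat.le_of_ble_eq_true a1.1.2, fun j hj e => ?_⟩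
    have a2 := nall_true a1.2 j hj
    rw [e] at a2
    simp at a2
  let z : (i : ℕ) → i < 5 → V := fun i hi =>
    y ⟨dK p i / 8, (g i hi).1⟩ ⟨dK p i % 8, lt_of_lt_of_le (g i hi).2.1 ht⟩
  have key : ∀ i j l (hi : i < 5) (hj : j < 5) (hl : l < 5), i < j → j < l →
      E (z i hi) (z j hj) (z l hl) = 1 := by
    intro i j l hi hj hl hij hjl
    have hb := nall_true (nall_true (nall_true h1 l hl) j hjl) i hij
    refine tv_sound hE h hA _ _ _ _ _ _ ?_ ?_ ?_ (le_refl 1) (Nat.eq_of_beq_eq_true hb)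
    · intro e1 e2
      have e1' := Fin.mk.inj_iff.mp e1
      have e2' := Fin.mk.inj_iff.mp e2
      exact (g j hj).2.2 i hij (by omega)
    · intro e1 e2
      have e1' := Fin.mk.inj_iff.mp e1
      have e2' := Fin.mk.inj_iff.mp e2
      exact (g l hl).2.2 i (hij.trans hjl) (by omega)
    · intro e1 e2
      have e1' := Fin.mk.inj_iff.mp e1
      have e2' := Fin.mk.inj_iff.mp e2
      exact (g l hl).2.2 j hjl (by omega)
  have l0 : 0 < 5 := by norm_num
  have l1 : 1 < 5 := by norm_num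
  have l2 : 2 < 5 := by norm_num
  have l3 : 3 < 5 := by norm_num
  have l4 : 4 < 5 := by norm_num
  have h5 := hK (z 0 l0) (z 1 l1) (z 2 l2) (z 3 l3) (z 4 l4)
  rw [key 0 1 2 l0 l1 l2 (by norm_num) (by norm_num),
    key 0 1 3 l0 l1 l3 (by norm_num) (by norm_num),
    key 0 2 3 l0 l2 l3 (by norm_num) (by norm_num),
    key 1 2 3 l1 l2 l3 (by norm_num) (by norm_num),
    key 0 1 4 l0 l1 l4 (by norm_num) (by norm_num),
    key 0 2 4 l0 l2 l4 (by norm_num) (by norm_num),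
    key 1 2 4 l1 l2 l4 (by norm_num) (by norm_num),
    key 0 3 4 l0 l3 l4 (by norm_num) (by norm_num),
    key 1 3 4 l1 l3 l4 (by norm_num) (by norm_num),
    key 2 3 4 l2 l3 l4 (by norm_num) (by norm_num)] at h5
  exact absurd h5 (by decide)

theorem ck5_sound (hE : Sy E) (hK : NoK5 E) {P : Pt} {t0 : ℕ} (h : Hom E m c t y)
    (hc : ∀ i j, c i j = 0 ∨ c i j = 1) (ht2 : 2 ≤ t) (ht : P.k * t0 ≤ t) :
    ∀ (tr : Tr) (env : List (ℕ × ℕ)), Agree c env → ck5 P m env tr = true →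
    ∃ e : Fin P.k × Fin t0 → Fin 6 × Fin t, Function.Injective e ∧
      Occ E P t0 fun q => y (e q).1 (e q).2
  | .k p, env, hA, hp => (leafK5_sound hE hK h hA ht2 hp).elim
  | .f p, env, hA, hp => leafF_sound hE h hA ht hp
  | .n v a b, env, hA, hp => by
    have hp' : (ck5 P m ((v, 0) :: env) a && ck5 P m ((v, 1) :: env) b) = true := hp
    rw [Bool.and_eq_true] at hp'
    rcases hc (v / 6) (v % 6) with e | e
    · exact ck5_sound hE hK h hc ht2 ht a _ (hA.cons e) hp'.1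
    · exact ck5_sound hE hK h hc ht2 ht b _ (hA.cons e) hp'.2

end
end Pool.Agent.Y47.BU5
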